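import Mathlib
import Pool.Agent.X199.BohrA

/-!
# Infinite abelian groups with the Bohr topology are not quotients of reflexive precompact groups
-/

open Topology Filter Set

universe u v

namespace Pool.Agent.Results.MP_329fc6_gt.BohrTopologies

open Pool.Agent.X199.BohrZ Pool.Agent.X199.BohrA

/-- **Main theorem.**  For every infinite abelian group `A`, the group `Bohr A` (the group `A` with
the coarsest topology making all homomorphisms from `A` into the circle continuous) is a Hausdorff
precompact group, the compact-open topology makes its dual group have an infinite compact subset,
and no reflexive precompact abelian group admits a continuous homomorphism onto `Bohr A`; in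
particular `Bohr A` is not a quotient of a reflexive precompact abelian group. -/
theorem result (A : Type u) [CommGroup A] [Infinite A] :
    (IsTopologicalGroup (Bohr A) ∧ T2Space (Bohr A) ∧ Precompact (Bohr A)) ∧
    (∃ C : Set (PontryaginDual (Bohr A)), IsCompact C ∧ C.Infinite) ∧
    ∀ (G : Type v) [CommGroup G] [TopologicalSpace G] [IsTopologicalGroup G],
      Precompact G → Reflexive G → ∀ f : G →ₜ* Bohr A, ¬ Function.Surjective f := by
  refine ⟨⟨inferInstance, inferInstance, precompact_bohr⟩, exists_infinite_compact, ?_⟩
  intro G _ _ _ hp hr f
  exact not_image G hp hr f

end Pool.Agent.Results.MP_329fc6_gt.BohrTopologies
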